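import Mathlib
import Pool.Agent.H92.Main

/-!
# Monochromatic sumsets in the reals from a total diffuse measure

If there is a probability measure defined on all sets of reals and vanishing on singletons, then
every finite colouring of the reals has an infinite set `X` with `X + X` monochromatic.  In
particular this holds if the continuum is real-valued measurable.
-/

open Set

namespace Pool.Agent.Results.MP_dcd8e0_lc.TotalMeasure

/-- `m` is a probability measure defined on all subsets of `ℝ` that vanishes on singletons. -/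
def IsTotalDiffuseProbability (m : Set ℝ → ℝ) : Prop :=
  (∀ s, 0 ≤ m s) ∧ m univ = 1 ∧ (∀ x : ℝ, m {x} = 0) ∧
    ∀ f : ℕ → Set ℝ, Pairwise (Function.onFun Disjoint f) →
      HasSum (fun n => m (f n)) (m (⋃ n, f n))

/-- A total diffuse probability measure on `ℝ` implies `rd(ℝ) = ℵ₀`: every finite colouring of `ℝ`
has an infinite `X` with `X + X` monochromatic, and some countable colouring has none. -/
theorem result (h : ∃ m : Set ℝ → ℝ, IsTotalDiffuseProbability m) :
    (∀ r : ℕ, ∀ c : ℝ → Fin r, ∃ X : Set ℝ, X.Infinite ∧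
      ∃ k : Fin r, ∀ x ∈ X, ∀ y ∈ X, c (x + y) = k) ∧
    (∃ c : ℝ → ℕ, ∀ X : Set ℝ, X.Infinite → ¬ ∃ k, ∀ x ∈ X, ∀ y ∈ X, c (x + y) = k) := by
  obtain ⟨m, h0, h1, hs, hadd⟩ := h
  refine ⟨Pool.Agent.H92.Main.finite_part m h0 h1 hs hadd, ?_⟩
  obtain ⟨c, hc⟩ := Pool.Agent.H92.Main.countable_part
  refine ⟨c, fun X hX hk => ?_⟩
  obtain ⟨k, hk⟩ := hk
  obtain ⟨x, hx, y, hy, z, hz, w, hw, hne⟩ := hc X hX
  exact hne ((hk x hx y hy).trans (hk z hz w hw).symm)

end Pool.Agent.Results.MP_dcd8e0_lc.TotalMeasure
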